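import Pool.Agent.Lib.MP_28303a_al.NT.Lab

/-! # Entries of matrices over group rings -/

set_option autoImplicit false
set_option linter.unusedSectionVars false
set_option linter.unusedVariables false

namespace Pool.Agent.NegK.NT.H47

universe u

/-- The free module. -/
abbrev Fr (k Γ ι : Type u) [Ring k] [Group Γ] : Type u := ι →₀ MonoidAlgebra k Γ

/-- Linear maps of free modules. -/
abbrev Mt (k Γ ι ι' : Type u) [Ring k] [Group Γ] : Type u :=
  Fr k Γ ι →ₗ[MonoidAlgebra k Γ] Fr k Γ ι'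

variable {k : Type u} [Ring k] {Γ : Type u} [Group Γ] {ι ι' ι'' κ κ' : Type u}

theorem mt_apply (f : Mt k Γ ι ι') (x : Fr k Γ ι) (l : ι') :
    f x l = x.sum fun j a => a * f (Finsupp.single j 1) l := by
  classical
  conv_lhs => rw [← Finsupp.sum_single x, map_finsuppSum]
  rw [Finsupp.sum, Finsupp.sum, Finset.sum_apply']
  refine Finset.sum_congr rfl fun j _ => ?_
  have : Finsupp.single j (x j) = x j • (Finsupp.single j (1 : MonoidAlgebra k Γ)) := by
    rw [Finsupp.smul_single, smul_eq_mul, mul_one]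
  rw [this, map_smul, Finsupp.smul_apply, smul_eq_mul]

theorem mt_ext {f h : Mt k Γ ι ι'}
    (H : ∀ i, f (Finsupp.single i 1) = h (Finsupp.single i 1)) : f = h := by
  refine Finsupp.lhom_ext fun i b => ?_
  have : Finsupp.single i b = b • (Finsupp.single i (1 : MonoidAlgebra k Γ)) := by
    rw [Finsupp.smul_single, smul_eq_mul, mul_one]
  rw [this, map_smul, map_smul, H]

theorem ent_comp {f : Mt k Γ ι ι'} {h : Mt k Γ ι' ι''} {x : ι} {z : ι''} {g : Γ}
    (H : ent (h ∘ₗ f) x z g ≠ 0) :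
    ∃ y g₁ g₂, ent f x y g₁ ≠ 0 ∧ ent h y z g₂ ≠ 0 ∧ g₁ * g₂ = g := by
  classical
  rw [ent, LinearMap.comp_apply, mt_apply, Finsupp.sum] at H
  have : ∃ j, ((f (Finsupp.single x 1)) j * h (Finsupp.single j 1) z).coeff g ≠ 0 := by
    by_contra hc
    push Not at hc
    refine H ?_
    rw [MonoidAlgebra.coeff_sum, Finset.sum_apply']
    exact Finset.sum_eq_zero fun j _ => hc j
  obtain ⟨j, hj⟩ := this
  obtain ⟨g₁, g₂, h1, h2, h3⟩ := Loc.exists_of_mul hj
  exact ⟨j, g₁, g₂, h1, h2, h3⟩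

@[simp] theorem ent_zero (x : ι) (y : ι') (g : Γ) : ent (0 : Mt k Γ ι ι') x y g = 0 := rfl

@[simp] theorem ent_add (f h : Mt k Γ ι ι') (x : ι) (y : ι') (g : Γ) :
    ent (f + h) x y g = ent f x y g + ent h x y g := by
  rw [ent, LinearMap.add_apply, Finsupp.add_apply, MonoidAlgebra.coeff_add, Finsupp.add_apply]
  rfl

@[simp] theorem ent_neg (f : Mt k Γ ι ι') (x : ι) (y : ι') (g : Γ) :
    ent (-f) x y g = -ent f x y g := by
  rw [ent, LinearMap.neg_apply, Finsupp.neg_apply, MonoidAlgebra.coeff_neg, Finsupp.neg_apply]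
  rfl

theorem ent_id {x y : ι} {g : Γ} (H : ent (LinearMap.id : Mt k Γ ι ι) x y g ≠ 0) :
    x = y ∧ g = 1 ∧ ent (LinearMap.id : Mt k Γ ι ι) x y g = 1 := by
  classical
  rw [ent, LinearMap.id_apply, Finsupp.single_apply] at H
  split_ifs at H with hij
  · subst hij
    rw [MonoidAlgebra.one_def, MonoidAlgebra.coeff_single, Finsupp.single_apply] at H
    split_ifs at H with hg
    · subst hg
      refine ⟨rfl, rfl, ?_⟩
      rw [ent, LinearMap.id_apply, Finsupp.single_eq_same, MonoidAlgebra.one_def,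
        MonoidAlgebra.coeff_single, Finsupp.single_eq_same]
    · exact absurd rfl H
  · exact absurd rfl H

theorem ent_finite (f : Mt k Γ ι ι') (x : ι) (y : ι') : {g | ent f x y g ≠ 0}.Finite :=
  Set.Finite.subset (Finset.finite_toSet ((f (Finsupp.single x 1) y).coeff.support)) fun g hg =>
    Finset.mem_coe.2 (Finsupp.mem_support_iff.2 hg)

/-! ### Injections and projections -/

/-- The inclusion of free modules given by a map of the bases. -/
noncomputable def up (e : ι → κ) : Mt k Γ ι κ := Finsupp.lmapDomain _ _ e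

/-- The projection of free modules given by an injective map of the bases. -/
noncomputable def dn (e : ι → κ) (he : Function.Injective e) : Mt k Γ κ ι :=
  Finsupp.lcomapDomain e he

section

variable (e : ι → κ) (he : Function.Injective e)

theorem dn_apply (v : Fr k Γ κ) (x : ι) : (dn e he : Mt k Γ κ ι) v x = v (e x) := rfl

include he in
theorem up_apply (v : Fr k Γ ι) (x : ι) : (up e : Mt k Γ ι κ) v (e x) = v x :=
  Finsupp.mapDomain_apply he v x

theorem up_apply_of (v : Fr k Γ ι) (y : κ) (h : ∀ x, e x ≠ y) : (up e : Mt k Γ ι κ) v y = 0 :=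
  Finsupp.mapDomain_of_notMem_range v y fun ⟨x, hx⟩ => h x hx

theorem up_single (x : ι) (b : MonoidAlgebra k Γ) :
    (up e : Mt k Γ ι κ) (Finsupp.single x b) = Finsupp.single (e x) b :=
  Finsupp.mapDomain_single

theorem dn_single (x : ι) (b : MonoidAlgebra k Γ) :
    (dn e he : Mt k Γ κ ι) (Finsupp.single (e x) b) = Finsupp.single x b := by
  classical
  ext1 y
  rw [dn_apply, Finsupp.single_apply, Finsupp.single_apply]
  exact if_congr he.eq_iff rfl rfl

theorem dn_single_of (y : κ) (b : MonoidAlgebra k Γ) (h : ∀ x, e x ≠ y) :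
    (dn e he : Mt k Γ κ ι) (Finsupp.single y b) = 0 := by
  classical
  ext1 x
  rw [dn_apply, Finsupp.single_apply, if_neg fun H => h x H.symm]
  rfl

@[simp] theorem dn_up (v : Fr k Γ ι) : (dn e he : Mt k Γ κ ι) (up e v) = v := by
  ext1 x
  rw [dn_apply, up_apply e he]

theorem up_dn (v : Fr k Γ κ) (h : ∀ y, v y ≠ 0 → ∃ x, e x = y) :
    (up e : Mt k Γ ι κ) (dn e he v) = v := by
  ext1 y
  by_cases hy : ∃ x, e x = y
  · obtain ⟨x, rfl⟩ := hy
    rw [up_apply e he, dn_apply]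
  · rw [up_apply_of e _ y fun x hx => hy ⟨x, hx⟩]
    by_contra h1
    exact hy (h y fun h2 => h1 h2.symm)

theorem ent_up_comp (f : Mt k Γ ι' ι) (x : ι') (y : ι) (g : Γ) (he : Function.Injective e) :
    ent (up e ∘ₗ f) x (e y) g = ent f x y g := by
  rw [ent, LinearMap.comp_apply, up_apply e he]
  rfl

theorem ent_up_comp_of (f : Mt k Γ ι' ι) (x : ι') (y : κ) (g : Γ) (h : ∀ x, e x ≠ y) :
    ent (up e ∘ₗ f) x y g = 0 := by
  rw [ent, LinearMap.comp_apply, up_apply_of e _ y h]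
  rfl

theorem ent_dn_comp (f : Mt k Γ ι' κ) (x : ι') (y : ι) (g : Γ) :
    ent (dn e he ∘ₗ f) x y g = ent f x (e y) g := rfl

theorem ent_comp_up (f : Mt k Γ κ ι') (x : ι) (y : ι') (g : Γ) :
    ent (f ∘ₗ up e) x y g = ent f (e x) y g := by
  rw [ent, LinearMap.comp_apply, up_single]
  rfl

theorem ent_comp_dn (f : Mt k Γ ι ι') (x : ι) (y : ι') (g : Γ) :
    ent (f ∘ₗ dn e he) (e x) y g = ent f x y g := by
  rw [ent, LinearMap.comp_apply, dn_single]
  rfl

theorem ent_comp_dn_of (f : Mt k Γ ι ι') (x : κ) (y : ι') (g : Γ) (h : ∀ z, e z ≠ x) :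
    ent (f ∘ₗ dn e he) x y g = 0 := by
  rw [ent, LinearMap.comp_apply, dn_single_of e he x _ h, map_zero]
  rfl

end

/-! ### Block matrices -/

/-- The first component. -/
noncomputable abbrev fs : Mt k Γ (ι ⊕ ι') ι := dn Sum.inl Sum.inl_injective

/-- The second component. -/
noncomputable abbrev sn : Mt k Γ (ι ⊕ ι') ι' := dn Sum.inr Sum.inr_injective

theorem sum_ext {v w : Fr k Γ (ι ⊕ ι')} (h1 : fs v = fs w) (h2 : sn v = sn w) : v = w := by
  ext1 x
  rcases x with x | x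
  · exact congrArg (fun z : Fr k Γ ι => z x) h1
  · exact congrArg (fun z : Fr k Γ ι' => z x) h2

@[simp] theorem fs_up_inr (v : Fr k Γ ι') :
    (fs : Mt k Γ (ι ⊕ ι') ι) (up Sum.inr v) = 0 := by
  ext1 x
  exact up_apply_of _ _ _ fun _ => Sum.inr_ne_inl

@[simp] theorem sn_up_inl (v : Fr k Γ ι) :
    (sn : Mt k Γ (ι ⊕ ι') ι') (up Sum.inl v) = 0 := by
  ext1 x
  exact up_apply_of _ _ _ fun _ => Sum.inl_ne_inr

/-- Block matrices. -/
noncomputable def bk (a : Mt k Γ ι κ) (b : Mt k Γ ι κ') (c : Mt k Γ ι' κ) (d : Mt k Γ ι' κ') :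
    Mt k Γ (ι ⊕ ι') (κ ⊕ κ') :=
  up Sum.inl ∘ₗ (a ∘ₗ fs + c ∘ₗ sn) + up Sum.inr ∘ₗ (b ∘ₗ fs + d ∘ₗ sn)

/-- Block columns. -/
noncomputable def bc (a : Mt k Γ κ ι) (b : Mt k Γ κ ι') : Mt k Γ κ (ι ⊕ ι') :=
  up Sum.inl ∘ₗ a + up Sum.inr ∘ₗ b

variable (a : Mt k Γ ι κ) (b : Mt k Γ ι κ') (c : Mt k Γ ι' κ) (d : Mt k Γ ι' κ')

@[simp] theorem fs_bk (v : Fr k Γ (ι ⊕ ι')) : fs (bk a b c d v) = a (fs v) + c (sn v) := by
  rw [bk, LinearMap.add_apply, LinearMap.comp_apply, LinearMap.comp_apply, map_add, dn_up,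
    fs_up_inr, add_zero]
  rfl

@[simp] theorem sn_bk (v : Fr k Γ (ι ⊕ ι')) : sn (bk a b c d v) = b (fs v) + d (sn v) := by
  rw [bk, LinearMap.add_apply, LinearMap.comp_apply, LinearMap.comp_apply, map_add, dn_up,
    sn_up_inl, zero_add]
  rfl

@[simp] theorem fs_bc (a : Mt k Γ κ ι) (b : Mt k Γ κ ι') (v : Fr k Γ κ) :
    fs (bc a b v) = a v := by
  rw [bc, LinearMap.add_apply, LinearMap.comp_apply, LinearMap.comp_apply, map_add, dn_up,
    fs_up_inr, add_zero]

@[simp] theorem sn_bc (a : Mt k Γ κ ι) (b : Mt k Γ κ ι') (v : Fr k Γ κ) :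
    sn (bc a b v) = b v := by
  rw [bc, LinearMap.add_apply, LinearMap.comp_apply, LinearMap.comp_apply, map_add, dn_up,
    sn_up_inl, zero_add]

theorem ent_comp_add (f : Mt k Γ ι ι') (h h' : Mt k Γ κ ι) :
    f ∘ₗ (h + h') = f ∘ₗ h + f ∘ₗ h' := LinearMap.comp_add _ _ _

theorem ent_fs (f : Mt k Γ ι' κ) (x : ι') (y : ι) (g : Γ) (F : Mt k Γ ι' (ι ⊕ ι'')) :
    ent F x (Sum.inl y) g = ent (fs ∘ₗ F) x y g := rfl

theorem ent_sn (f : Mt k Γ ι' κ) (x : ι') (y : ι'') (g : Γ) (F : Mt k Γ ι' (ι ⊕ ι'')) :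
    ent F x (Sum.inr y) g = ent (sn ∘ₗ F) x y g := rfl

@[simp] theorem fs_single_inl (x : ι) (b : MonoidAlgebra k Γ) :
    (fs : Mt k Γ (ι ⊕ ι') ι) (Finsupp.single (Sum.inl x) b) = Finsupp.single x b :=
  dn_single _ _ _ _

@[simp] theorem fs_single_inr (x : ι') (b : MonoidAlgebra k Γ) :
    (fs : Mt k Γ (ι ⊕ ι') ι) (Finsupp.single (Sum.inr x) b) = 0 :=
  dn_single_of _ _ _ _ fun _ => Sum.inl_ne_inr

@[simp] theorem sn_single_inl (x : ι) (b : MonoidAlgebra k Γ) :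
    (sn : Mt k Γ (ι ⊕ ι') ι') (Finsupp.single (Sum.inl x) b) = 0 :=
  dn_single_of _ _ _ _ fun _ => Sum.inr_ne_inl

@[simp] theorem sn_single_inr (x : ι') (b : MonoidAlgebra k Γ) :
    (sn : Mt k Γ (ι ⊕ ι') ι') (Finsupp.single (Sum.inr x) b) = Finsupp.single x b :=
  dn_single _ _ _ _

@[simp] theorem ent_bk_ll (x : ι) (y : κ) (g : Γ) :
    ent (bk a b c d) (Sum.inl x) (Sum.inl y) g = ent a x y g := by
  have : fs (bk a b c d (Finsupp.single (Sum.inl x) 1)) = a (Finsupp.single x 1) := by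
    rw [fs_bk, fs_single_inl, sn_single_inl, map_zero, add_zero]
  exact congrArg (fun z : Fr k Γ κ => (z y).coeff g) this

@[simp] theorem ent_bk_lr (x : ι) (y : κ') (g : Γ) :
    ent (bk a b c d) (Sum.inl x) (Sum.inr y) g = ent b x y g := by
  have : sn (bk a b c d (Finsupp.single (Sum.inl x) 1)) = b (Finsupp.single x 1) := by
    rw [sn_bk, fs_single_inl, sn_single_inl, map_zero, add_zero]
  exact congrArg (fun z : Fr k Γ κ' => (z y).coeff g) this

@[simp] theorem ent_bk_rl (x : ι') (y : κ) (g : Γ) :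
    ent (bk a b c d) (Sum.inr x) (Sum.inl y) g = ent c x y g := by
  have : fs (bk a b c d (Finsupp.single (Sum.inr x) 1)) = c (Finsupp.single x 1) := by
    rw [fs_bk, fs_single_inr, sn_single_inr, map_zero, zero_add]
  exact congrArg (fun z : Fr k Γ κ => (z y).coeff g) this

@[simp] theorem ent_bk_rr (x : ι') (y : κ') (g : Γ) :
    ent (bk a b c d) (Sum.inr x) (Sum.inr y) g = ent d x y g := by
  have : sn (bk a b c d (Finsupp.single (Sum.inr x) 1)) = d (Finsupp.single x 1) := by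
    rw [sn_bk, fs_single_inr, sn_single_inr, map_zero, zero_add]
  exact congrArg (fun z : Fr k Γ κ' => (z y).coeff g) this

@[simp] theorem ent_bc_l (a : Mt k Γ κ ι) (b : Mt k Γ κ ι') (x : κ) (y : ι) (g : Γ) :
    ent (bc a b) x (Sum.inl y) g = ent a x y g :=
  congrArg (fun z : Fr k Γ ι => (z y).coeff g) (fs_bc a b (Finsupp.single x 1))

@[simp] theorem ent_bc_r (a : Mt k Γ κ ι) (b : Mt k Γ κ ι') (x : κ) (y : ι') (g : Γ) :
    ent (bc a b) x (Sum.inr y) g = ent b x y g :=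
  congrArg (fun z : Fr k Γ ι' => (z y).coeff g) (sn_bc a b (Finsupp.single x 1))

@[simp] theorem ent_comp_fs_l (f : Mt k Γ ι κ) (x : ι) (y : κ) (g : Γ) :
    ent (f ∘ₗ (fs : Mt k Γ (ι ⊕ ι') ι)) (Sum.inl x) y g = ent f x y g :=
  ent_comp_dn _ _ _ _ _ _

@[simp] theorem ent_comp_fs_r (f : Mt k Γ ι κ) (x : ι') (y : κ) (g : Γ) :
    ent (f ∘ₗ (fs : Mt k Γ (ι ⊕ ι') ι)) (Sum.inr x) y g = 0 :=
  ent_comp_dn_of _ _ _ _ _ _ fun _ => Sum.inl_ne_inr

end Pool.Agent.NegK.NT.H47
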