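import Pool.Agent.Lib.MP_28303a_al.NT.H47.Ent

/-! # Koszul complexes of idempotents which are null-homotopic in several directions -/

set_option autoImplicit false
set_option linter.unusedSectionVars false
set_option linter.unusedVariables false

namespace Pool.Agent.NegK.NT.H47

universe u

variable {k : Type u} [Ring k] {Γ : Type u} [Group Γ]

/-! ### Upper bounds -/

section

variable (T : Sys Γ) (j : Fin T.m)

theorem exists_ub {s : Set (T.B j)} (hs : s.Finite) : ∃ z, ∀ w ∈ s, w ≤ z := by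
  induction s, hs using Set.Finite.induction_on with
  | empty => exact ⟨(T.ne j).some, fun w hw => absurd hw (Set.notMem_empty w)⟩
  | insert _ _ ih =>
    rename_i a s _ _
    obtain ⟨z, hz⟩ := ih
    obtain ⟨z', h1, h2⟩ := T.dir j a z
    refine ⟨z', fun w hw => ?_⟩
    rcases Set.mem_insert_iff.1 hw with rfl | hw
    · exact h1
    · exact (hz w hw).trans h2

theorem le_smul_iff (g : Γ) (x y : T.B j) : x ≤ g • y ↔ g⁻¹ • x ≤ y := by
  constructor
  · intro h
    have := T.mono j g⁻¹ _ _ h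
    rwa [inv_smul_smul] at this
  · intro h
    have := T.mono j g _ _ h
    rwa [smul_inv_smul] at this

/-- Locations in the direction `j` with finitely many conditions. -/
theorem enl {L : Type u} [Finite L] (deg : L → ℤ) (D : Mt k Γ L L)
    (hD : ∀ x y g, ent D x y g ≠ 0 → deg y = deg x + 1) (b : L → T.B j) :
    ∃ l : L → T.B j, (∀ x, b x ≤ l x) ∧ ∀ x y g, ent D x y g ≠ 0 → l x ≤ g • l y := by
  classical
  obtain ⟨a, ha⟩ : ∃ a : ℤ, ∀ x, a ≤ deg x := by
    obtain ⟨a, ha⟩ := (Set.finite_range deg).bddBelow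
    exact ⟨a, fun x => ha ⟨x, rfl⟩⟩
  obtain ⟨c, hc⟩ : ∃ c : ℤ, ∀ x, deg x ≤ c := by
    obtain ⟨a, ha⟩ := (Set.finite_range deg).bddAbove
    exact ⟨a, fun x => ha ⟨x, rfl⟩⟩
  have key : ∀ n : ℕ, ∃ l : L → T.B j, (∀ x, b x ≤ l x) ∧
      ∀ x y g, ent D x y g ≠ 0 → deg y < a + n → l x ≤ g • l y := by
    intro n
    induction n with
    | zero =>
      refine ⟨b, fun x => le_refl _, fun x y g _ h => ?_⟩
      have := ha y
      push_cast at h
      omega
    | succ n ih =>
      obtain ⟨l, h1, h2⟩ := ih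
      have hub : ∀ y : L, ∃ z, l y ≤ z ∧ ∀ x g, ent D x y g ≠ 0 → g⁻¹ • l x ≤ z := by
        intro y
        obtain ⟨z, hz⟩ := exists_ub T j (s := {l y} ∪
          ⋃ x : L, (fun g : Γ => g⁻¹ • l x) '' {g | ent D x y g ≠ 0})
          ((Set.finite_singleton _).union
            (Set.finite_iUnion fun x => (ent_finite D x y).image _))
        refine ⟨z, hz _ (Or.inl rfl), fun x g hg => hz _ (Or.inr ?_)⟩
        rw [Set.mem_iUnion]
        exact ⟨x, g, hg, rfl⟩
      choose ub hub1 hub2 using hub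
      refine ⟨fun y => if deg y = a + n then ub y else l y, fun x => ?_, fun x y g hg hy => ?_⟩
      · show b x ≤ if deg x = a + n then ub x else l x
        split_ifs
        · exact (h1 x).trans (hub1 x)
        · exact h1 x
      · show (if deg x = a + n then ub x else l x) ≤ g • (if deg y = a + n then ub y else l y)
        have hxy := hD x y g hg
        push_cast at hy
        have hx : ¬ deg x = a + n := by omega
        rw [if_neg hx]
        split_ifs with h3
        · rw [le_smul_iff]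
          exact hub2 y x g hg
        · exact h2 x y g hg (by omega)
  obtain ⟨l, h1, h2⟩ := key (c - a + 1).toNat
  refine ⟨l, h1, fun x y g hg => h2 x y g hg ?_⟩
  have h3 := hc y
  have h4 := ha y
  rw [Int.toNat_of_nonneg (by omega)]
  omega

end

/-! ### The construction -/

/-- The Koszul complex over the complex `(L, D)` with the endomorphism `p`. -/
structure Kd (T : Sys Γ) (S J : Finset (Fin T.m)) {L : Type u} (deg : L → ℤ) (D p : Mt k Γ L L)
    (loc : L → T.Box) where
  ι : Type u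
  fin : Finite ι
  dg : ι → ℤ
  lab : ι → L
  d : Mt k Γ ι ι
  lc : ι → T.Box
  dd : ∀ x, d (d x) = 0
  hd : ∀ x y g, ent d x y g ≠ 0 → dg y = dg x + 1
  hl : ∀ x y g, ent d x y g ≠ 0 →
    (g = 1 ∧ lab x = lab y ∧ ∃ z : ℤ, ent d x y g = z) ∨ ent D (lab x) (lab y) g ≠ 0
  sd : ∀ x y g, ent d x y g ≠ 0 → ∀ i ∈ S, lc x i ≤ g • lc y i
  hlc : ∀ x, ∀ i, i ∉ J → lc x i = loc (lab x) i
  c : Fin T.m → Mt k Γ ι ι
  cc : ∀ j ∈ J, ∀ x, d (c j x) + c j (d x) = x
  cd : ∀ j ∈ J, ∀ x y g, ent (c j) x y g ≠ 0 → dg y + 1 = dg x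
  cl : ∀ j ∈ J, ∀ x y g, ent (c j) x y g ≠ 0 →
    g = 1 ∧ lab x = lab y ∧ (∃ z : ℤ, ent (c j) x y g = z) ∧ ∀ i ∈ S, i ≠ j → lc x i ≤ lc y i
  α : Mt k Γ L ι
  β : Mt k Γ ι L
  dα : ∀ x, d (α x) = α (D x)
  dβ : ∀ x, β (d x) = D (β x)
  gα : ∀ x y g, ent α x y g ≠ 0 → dg y = deg x
  gβ : ∀ x y g, ent β x y g ≠ 0 → deg y = dg x
  sα : ∀ x y g, ent α x y g ≠ 0 → ∀ i ∈ S, loc x i ≤ g • lc y i
  sβ : ∀ x y g, ent β x y g ≠ 0 → ∀ i ∈ S, lc x i ≤ g • loc y i
  βα : ∀ x, β (α x) = (p ^ J.card) x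

variable {T : Sys Γ} {S : Finset (Fin T.m)} {L : Type u} [Finite L] {deg : L → ℤ}
  {D p : Mt k Γ L L} {loc : L → T.Box}

/-- The complex itself. -/
noncomputable def Kd.base (dd : ∀ x, D (D x) = 0)
    (hD : ∀ x y g, ent D x y g ≠ 0 → deg y = deg x + 1)
    (sD : ∀ x y g, ent D x y g ≠ 0 → ∀ i ∈ S, loc x i ≤ g • loc y i) :
    Kd T S ∅ deg D p loc where
  ι := L
  fin := inferInstance
  dg := deg
  lab := id
  d := D
  lc := loc
  dd := dd
  hd := hD
  hl x y g h := Or.inr h
  sd := sD
  hlc x i _ := rfl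
  c _ := 0
  cc j hj := absurd hj (Finset.notMem_empty j)
  cd j hj := absurd hj (Finset.notMem_empty j)
  cl j hj := absurd hj (Finset.notMem_empty j)
  α := LinearMap.id
  β := LinearMap.id
  dα x := rfl
  dβ x := rfl
  gα x y g h := by rw [(ent_id h).1]
  gβ x y g h := by rw [(ent_id h).1]
  sα x y g h i _ := by
    obtain ⟨h1, h2, _⟩ := ent_id h
    rw [h1, h2, one_smul]
  sβ x y g h i _ := by
    obtain ⟨h1, h2, _⟩ := ent_id h
    rw [h1, h2, one_smul]
  βα x := by
    rw [Finset.card_empty, pow_zero]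
    rfl

/-- The next step. -/
theorem Kd.step {J : Finset (Fin T.m)} (Z : Kd T S J deg D p loc) (j : Fin T.m) (hjJ : j ∉ J)
    (hjS : j ∈ S) (hD : ∀ x y g, ent D x y g ≠ 0 → deg y = deg x + 1)
    (sD : ∀ x y g, ent D x y g ≠ 0 → ∀ i ∈ S, loc x i ≤ g • loc y i)
    (Dp : ∀ x, D (p x) = p (D x)) (gp : ∀ x y g, ent p x y g ≠ 0 → deg y = deg x)
    (sp : ∀ x y g, ent p x y g ≠ 0 → ∀ i ∈ S, loc x i ≤ g • loc y i)
    (h : Mt k Γ L L) (hh : ∀ x, p x = D (h x) + h (D x))
    (gh : ∀ x y g, ent h x y g ≠ 0 → deg y + 1 = deg x)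
    (sh : ∀ x y g, ent h x y g ≠ 0 → ∀ i ∈ S, i ≠ j → loc x i ≤ g • loc y i) :
    Nonempty (Kd T S (insert j J) deg D p loc) := by
  classical
  have := Z.fin
  -- lower bounds
  obtain ⟨b, hb⟩ : ∃ b : L → T.B j, ∀ y : L, loc y j ≤ b y ∧ ∀ (x : L) (z : Z.ι) (g : Γ),
      Z.lab z = y → ent (Z.α ∘ₗ h) x z g ≠ 0 → g⁻¹ • loc x j ≤ b y := by
    have : ∀ y : L, ∃ w : T.B j, loc y j ≤ w ∧ ∀ (x : L) (z : Z.ι) (g : Γ),
      Z.lab z = y → ent (Z.α ∘ₗ h) x z g ≠ 0 → g⁻¹ • loc x j ≤ w := by
      intro y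
      obtain ⟨w, hw⟩ := exists_ub T j (s := {loc y j} ∪
        ⋃ x : L, ⋃ z : Z.ι, (fun g : Γ => g⁻¹ • loc x j) '' {g | ent (Z.α ∘ₗ h) x z g ≠ 0})
        ((Set.finite_singleton _).union (Set.finite_iUnion fun x => Set.finite_iUnion fun z =>
          (ent_finite _ x z).image _))
      refine ⟨w, hw _ (Or.inl rfl), fun x z g _ hg => hw _ (Or.inr ?_)⟩
      rw [Set.mem_iUnion]
      refine ⟨x, ?_⟩
      rw [Set.mem_iUnion]
      exact ⟨z, g, hg, rfl⟩
    choose b hb using this
    exact ⟨b, hb⟩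
  obtain ⟨l, hl1, hl2⟩ := enl T j deg D hD b
  -- new locations
  let lr : Z.ι → T.Box := fun x => Function.update (Z.lc x) j (l (Z.lab x))
  have lr1 : ∀ x, lr x j = l (Z.lab x) := fun x => Function.update_self _ _ _
  have lr2 : ∀ x i, i ≠ j → lr x i = Z.lc x i := fun x i hi => Function.update_of_ne hi _ _
  have hlj : ∀ x, Z.lc x j ≤ l (Z.lab x) := fun x => by
    rw [Z.hlc x j hjJ]
    exact (hb _).1.trans (hl1 _)
  exact ⟨{
    ι := Z.ι ⊕ Z.ι
    fin := inferInstance
    dg := Sum.elim Z.dg fun x => Z.dg x + 1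
    lab := Sum.elim Z.lab Z.lab
    d := bk Z.d LinearMap.id 0 (-Z.d)
    lc := Sum.elim Z.lc lr
    dd := fun x => by
      refine sum_ext ?_ ?_
      · rw [fs_bk, fs_bk, LinearMap.zero_apply, LinearMap.zero_apply, add_zero, add_zero, Z.dd,
          map_zero]
      · rw [sn_bk, fs_bk, sn_bk, LinearMap.zero_apply, add_zero, LinearMap.neg_apply,
          LinearMap.id_apply, LinearMap.id_apply, LinearMap.neg_apply, map_add, map_neg, Z.dd,
          neg_zero, add_zero, add_neg_cancel, map_zero]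
    hd := by
      rintro (x | x) (y | y) g hg
      · exact Z.hd x y g (by rwa [ent_bk_ll] at hg)
      · rw [ent_bk_lr] at hg
        obtain ⟨rfl, _⟩ := ent_id hg
        rfl
      · rw [ent_bk_rl] at hg
        exact absurd (ent_zero _ _ _) hg
      · rw [ent_bk_rr, ent_neg] at hg
        have := Z.hd x y g fun h0 => hg (by rw [h0, neg_zero])
        show Z.dg y + 1 = Z.dg x + 1 + 1
        rw [this]
    hl := by
      rintro (x | x) (y | y) g hg
      · rw [ent_bk_ll] at hg ⊢
        exact Z.hl x y g hg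
      · rw [ent_bk_lr] at hg ⊢
        obtain ⟨rfl, rfl, h1⟩ := ent_id hg
        exact Or.inl ⟨rfl, rfl, 1, by rw [h1, Int.cast_one]⟩
      · rw [ent_bk_rl] at hg
        exact absurd (ent_zero _ _ _) hg
      · rw [ent_bk_rr, ent_neg] at hg ⊢
        rcases Z.hl x y g fun h0 => hg (by rw [h0, neg_zero]) with ⟨h1, h2, z, hz⟩ | h1
        · exact Or.inl ⟨h1, h2, -z, by rw [hz, Int.cast_neg]⟩
        · exact Or.inr h1
    sd := by
      rintro (x | x) (y | y) g hg i hi
      · exact Z.sd x y g (by rwa [ent_bk_ll] at hg) i hi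
      · rw [ent_bk_lr] at hg
        obtain ⟨rfl, rfl, _⟩ := ent_id hg
        show Z.lc x i ≤ (1 : Γ) • lr x i
        rw [one_smul]
        by_cases hij : i = j
        · subst hij
          rw [lr1]
          exact hlj x
        · rw [lr2 x i hij]
      · rw [ent_bk_rl] at hg
        exact absurd (ent_zero _ _ _) hg
      · rw [ent_bk_rr, ent_neg] at hg
        have hg' : ent Z.d x y g ≠ 0 := fun h0 => hg (by rw [h0, neg_zero])
        show lr x i ≤ g • lr y i
        by_cases hij : i = j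
        · subst hij
          rw [lr1, lr1]
          rcases Z.hl x y g hg' with ⟨h1, h2, _⟩ | h1
          · rw [h1, h2, one_smul]
          · exact hl2 _ _ _ h1
        · rw [lr2 x i hij, lr2 y i hij]
          exact Z.sd x y g hg' i hi
    hlc := by
      rintro (x | x) i hi
      · exact Z.hlc x i fun h1 => hi (Finset.mem_insert_of_mem h1)
      · show lr x i = loc (Z.lab x) i
        rw [lr2 x i fun h1 => hi (by rw [h1]; exact Finset.mem_insert_self _ _)]
        exact Z.hlc x i fun h1 => hi (Finset.mem_insert_of_mem h1)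
    c := fun i => if i = j then bk 0 0 LinearMap.id 0 else bk (Z.c i) 0 0 (-(Z.c i))
    cc := by
      intro i hi x
      by_cases hij : i = j
      · rw [if_pos hij]
        refine sum_ext ?_ ?_
        · simp only [map_add, fs_bk, sn_bk, LinearMap.zero_apply, LinearMap.id_apply,
            LinearMap.neg_apply, map_zero, add_zero, zero_add]
          abel
        · simp only [map_add, fs_bk, sn_bk, LinearMap.zero_apply, LinearMap.id_apply,
            LinearMap.neg_apply, map_zero, add_zero, zero_add, neg_zero]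
      · rw [if_neg hij]
        have hi' := Finset.mem_of_mem_insert_of_ne hi hij
        refine sum_ext ?_ ?_
        · simp only [map_add, fs_bk, sn_bk, LinearMap.zero_apply, LinearMap.id_apply,
            LinearMap.neg_apply, map_zero, add_zero, zero_add]
          exact Z.cc i hi' (fs x)
        · simp only [map_add, fs_bk, sn_bk, LinearMap.zero_apply, LinearMap.id_apply,
            LinearMap.neg_apply, map_zero, add_zero, zero_add, map_neg, neg_neg, neg_add]
          have := Z.cc i hi' (sn x)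
          conv_rhs => rw [← this]
          abel
    cd := by
      intro i hi
      by_cases hij : i = j
      · rw [if_pos hij]
        rintro (x | x) (y | y) g hg
        · rw [ent_bk_ll] at hg
          exact absurd (ent_zero _ _ _) hg
        · rw [ent_bk_lr] at hg
          exact absurd (ent_zero _ _ _) hg
        · rw [ent_bk_rl] at hg
          obtain ⟨rfl, _⟩ := ent_id hg
          rfl
        · rw [ent_bk_rr] at hg
          exact absurd (ent_zero _ _ _) hg
      · rw [if_neg hij]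
        have hi' := Finset.mem_of_mem_insert_of_ne hi hij
        rintro (x | x) (y | y) g hg
        · rw [ent_bk_ll] at hg
          exact Z.cd i hi' x y g hg
        · rw [ent_bk_lr] at hg
          exact absurd (ent_zero _ _ _) hg
        · rw [ent_bk_rl] at hg
          exact absurd (ent_zero _ _ _) hg
        · rw [ent_bk_rr, ent_neg] at hg
          have := Z.cd i hi' x y g fun h0 => hg (by rw [h0, neg_zero])
          show Z.dg y + 1 + 1 = Z.dg x + 1
          rw [this]
    cl := by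
      intro i hi
      by_cases hij : i = j
      · rw [if_pos hij]
        rintro (x | x) (y | y) g hg
        · rw [ent_bk_ll] at hg
          exact absurd (ent_zero _ _ _) hg
        · rw [ent_bk_lr] at hg
          exact absurd (ent_zero _ _ _) hg
        · rw [ent_bk_rl] at hg ⊢
          obtain ⟨rfl, h2, h3⟩ := ent_id hg
          refine ⟨h2, rfl, ⟨1, by rw [h3, Int.cast_one]⟩, fun i' _ hi'2 => ?_⟩
          show lr x i' ≤ Z.lc x i'
          rw [lr2 x i' (by rwa [hij] at hi'2)]
        · rw [ent_bk_rr] at hg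
          exact absurd (ent_zero _ _ _) hg
      · rw [if_neg hij]
        have hi' := Finset.mem_of_mem_insert_of_ne hi hij
        rintro (x | x) (y | y) g hg
        · rw [ent_bk_ll] at hg ⊢
          exact Z.cl i hi' x y g hg
        · rw [ent_bk_lr] at hg
          exact absurd (ent_zero _ _ _) hg
        · rw [ent_bk_rl] at hg
          exact absurd (ent_zero _ _ _) hg
        · rw [ent_bk_rr, ent_neg] at hg ⊢
          obtain ⟨h1, h2, ⟨z, h3⟩, h4⟩ := Z.cl i hi' x y g fun h0 => hg (by rw [h0, neg_zero])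
          refine ⟨h1, h2, ⟨-z, by rw [h3, Int.cast_neg]⟩, fun i' h5 h6 => ?_⟩
          show lr x i' ≤ lr y i'
          by_cases hij' : i' = j
          · rw [hij', lr1, lr1, h2]
          · rw [lr2 x i' hij', lr2 y i' hij']
            exact h4 i' h5 h6
    α := bc (Z.α ∘ₗ p) (Z.α ∘ₗ h)
    β := Z.β ∘ₗ fs
    dα := fun x => by
      refine sum_ext ?_ ?_
      · rw [fs_bk, fs_bc, fs_bc, LinearMap.zero_apply, add_zero, LinearMap.comp_apply,
          LinearMap.comp_apply, Z.dα, Dp]
      · rw [sn_bk, fs_bc, sn_bc, sn_bc, LinearMap.id_apply, LinearMap.neg_apply,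
          LinearMap.comp_apply, LinearMap.comp_apply, LinearMap.comp_apply, Z.dα, hh, map_add]
        abel
    dβ := fun x => by
      rw [LinearMap.comp_apply, LinearMap.comp_apply, fs_bk, LinearMap.zero_apply, add_zero, Z.dβ]
    gα := by
      rintro x (y | y) g hg
      · rw [ent_bc_l] at hg
        obtain ⟨w, g₁, g₂, h1, h2, _⟩ := ent_comp hg
        exact (Z.gα w y g₂ h2).trans (gp x w g₁ h1)
      · rw [ent_bc_r] at hg
        obtain ⟨w, g₁, g₂, h1, h2, _⟩ := ent_comp hg
        show Z.dg y + 1 = deg x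
        rw [Z.gα w y g₂ h2, gh x w g₁ h1]
    gβ := by
      rintro (x | x) y g hg
      · rw [ent_comp_fs_l] at hg
        exact Z.gβ x y g hg
      · rw [ent_comp_fs_r] at hg
        exact absurd rfl hg
    sα := by
      rintro x (y | y) g hg i hi
      · rw [ent_bc_l] at hg
        obtain ⟨w, g₁, g₂, h1, h2, rfl⟩ := ent_comp hg
        show loc x i ≤ (g₁ * g₂) • Z.lc y i
        rw [mul_smul]
        exact (sp x w g₁ h1 i hi).trans (T.mono i g₁ _ _ (Z.sα w y g₂ h2 i hi))
      · rw [ent_bc_r] at hg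
        show loc x i ≤ g • lr y i
        by_cases hij : i = j
        · subst hij
          rw [lr1, le_smul_iff]
          exact ((hb _).2 x y g rfl hg).trans (hl1 _)
        · rw [lr2 y i hij]
          obtain ⟨w, g₁, g₂, h1, h2, rfl⟩ := ent_comp hg
          rw [mul_smul]
          exact (sh x w g₁ h1 i hi hij).trans (T.mono i g₁ _ _ (Z.sα w y g₂ h2 i hi))
    sβ := by
      rintro (x | x) y g hg i hi
      · rw [ent_comp_fs_l] at hg
        exact Z.sβ x y g hg i hi
      · rw [ent_comp_fs_r] at hg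
        exact absurd rfl hg
    βα := fun x => by
      rw [LinearMap.comp_apply, fs_bc, LinearMap.comp_apply, Z.βα, Finset.card_insert_of_notMem hjJ,
        pow_succ]
      rfl }⟩

/-- The Koszul complexes exist. -/
theorem exists_kd (dd : ∀ x, D (D x) = 0)
    (hD : ∀ x y g, ent D x y g ≠ 0 → deg y = deg x + 1)
    (sD : ∀ x y g, ent D x y g ≠ 0 → ∀ i ∈ S, loc x i ≤ g • loc y i)
    (Dp : ∀ x, D (p x) = p (D x)) (gp : ∀ x y g, ent p x y g ≠ 0 → deg y = deg x)
    (sp : ∀ x y g, ent p x y g ≠ 0 → ∀ i ∈ S, loc x i ≤ g • loc y i)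
    (J : Finset (Fin T.m)) (hJ : J ⊆ S)
    (H : ∀ j ∈ J, ∃ h : Mt k Γ L L, (∀ x, p x = D (h x) + h (D x)) ∧
      (∀ x y g, ent h x y g ≠ 0 → deg y + 1 = deg x) ∧
      ∀ x y g, ent h x y g ≠ 0 → ∀ i ∈ S, i ≠ j → loc x i ≤ g • loc y i) :
    Nonempty (Kd T S J deg D p loc) := by
  classical
  induction J using Finset.induction_on with
  | empty => exact ⟨Kd.base dd hD sD⟩
  | insert j J hj ih =>
    obtain ⟨Z⟩ := ih ((Finset.subset_insert _ _).trans hJ) fun i hi =>
      H i (Finset.mem_insert_of_mem hi)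
    obtain ⟨h, h1, h2, h3⟩ := H j (Finset.mem_insert_self _ _)
    exact Z.step j hj (hJ (Finset.mem_insert_self _ _)) hD sD Dp gp sp h h1 h2 h3

end Pool.Agent.NegK.NT.H47
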