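import Pool.Agent.Lib.MP_28303a_al.NT.H47.Tot

/-! # The objects of `P_S^J(k)` are retracts of labelled complexes -/

set_option autoImplicit false
set_option linter.unusedSectionVars false
set_option linter.unusedVariables false

namespace Pool.Agent.NegK.NT.H47

universe u

open CategoryTheory Limits

variable {k : Type u} [Ring k] {Γ : Type u} [Group Γ] {T : Sys Γ} {S J : Finset (Fin T.m)}

/-! ### The labelled complex of total matrices -/

section

variable {L : Type u} {deg : L → ℤ} {D p : Mt k Γ L L} {loc : L → T.Box}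
  (Z : Kd T S J deg D p loc)

/-- The objects. -/
abbrev Kd.X (n : ℤ) : Loc k (T.P S) := ⟨{x // Z.dg x = n}, fun x => Z.lc x.1⟩

theorem Kd.spt_d (n m : ℤ) :
    Loc.Spt (Z.X n) (Z.X m) (pr Z.dg m ∘ₗ Z.d ∘ₗ inc Z.dg n) := by
  intro x y g hg i hi
  refine Z.sd x.1 y.1 g ?_ i hi
  have h1 : ent (pr Z.dg m ∘ₗ Z.d ∘ₗ inc Z.dg n) x y g = ent Z.d x.1 y.1 g := by
    rw [ent_dn_comp, ent_comp_up]
  rw [← h1]
  exact hg

/-- The complex. -/
noncomputable def Kd.cx : CochainComplex (Loc k (T.P S)) ℤ where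
  X n := Z.X n
  d n m := Loc.hm (A := Z.X n) (A' := Z.X m) (pr Z.dg m ∘ₗ Z.d ∘ₗ inc Z.dg n) (Z.spt_d n m)
  shape n m h := by
    refine Loc.hom_ext ?_
    rw [Loc.lin_hm, Loc.lin_zero]
    refine mt_ext_ent fun x y g => ?_
    rw [ent_dn_comp, ent_comp_up, ent_zero]
    by_contra hc
    have := Z.hd x.1 y.1 g hc
    rw [x.2, y.2] at this
    exact h this.symm
  d_comp_d' n m l h h' := by
    refine Loc.hom_ext ?_
    rw [Loc.lin_comp, Loc.lin_hm, Loc.lin_hm, Loc.lin_zero]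
    refine LinearMap.ext fun v => ?_
    have h1 : inc Z.dg m (pr Z.dg m (Z.d (inc Z.dg n v))) = Z.d (inc Z.dg n v) :=
      inc_pr Z.dg (Z.d ∘ₗ inc Z.dg n) (fun x y g hg => by
        rw [ent_comp_up] at hg
        rw [Z.hd _ _ _ hg, x.2]
        exact h) v
    simp only [LinearMap.comp_apply]
    rw [h1, Z.dd, map_zero]
    rfl

theorem Kd.lin_d (n m : ℤ) : Loc.lin (A := Z.X n) (A' := Z.X m) (Z.cx.d n m) =
    pr Z.dg m ∘ₗ Z.d ∘ₗ inc Z.dg n := rfl

theorem Kd.ent_d (n m : ℤ) (x : {x // Z.dg x = n}) (y : {x // Z.dg x = m}) (g : Γ) :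
    ent (Loc.lin (A := Z.X n) (A' := Z.X m) (Z.cx.d n m)) x y g = ent Z.d x.1 y.1 g := by
  rw [Z.lin_d, ent_dn_comp, ent_comp_up]

theorem Kd.finC : FinC Z.cx where
  fin n := by
    have := Z.fin
    exact inferInstanceAs (Finite {x // Z.dg x = n})
  bdd := by
    have := Z.fin
    obtain ⟨a, ha⟩ := (Set.finite_range Z.dg).bddBelow
    obtain ⟨b, hb⟩ := (Set.finite_range Z.dg).bddAbove
    refine ⟨a, b, fun n hn => ⟨fun x => ?_⟩⟩
    have h1 : a ≤ n := by
      have := ha ⟨x.1, rfl⟩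
      rwa [x.2] at this
    have h2 : n ≤ b := by
      have := hb ⟨x.1, rfl⟩
      rwa [x.2] at this
    omega

theorem Kd.csp' (j : Fin T.m) (hj : j ∈ J) (n n' : ℤ) (x : {x // Z.dg x = n})
    (y : {x // Z.dg x = n'}) (g : Γ) (hg : ent (pr Z.dg n' ∘ₗ Z.c j ∘ₗ inc Z.dg n) x y g ≠ 0) :
    g = 1 ∧ Z.lab x.1 = Z.lab y.1 ∧
      (∃ z : ℤ, ent (pr Z.dg n' ∘ₗ Z.c j ∘ₗ inc Z.dg n) x y g = z) ∧
      ∀ i ∈ S, i ≠ j → Z.lc x.1 i ≤ Z.lc y.1 i := by
  have h1 : ent (pr Z.dg n' ∘ₗ Z.c j ∘ₗ inc Z.dg n) x y g = ent (Z.c j) x.1 y.1 g := by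
    rw [ent_dn_comp, ent_comp_up]
  rw [h1] at hg ⊢
  exact Z.cl j hj _ _ _ hg

/-- The labelled complex. -/
noncomputable def Kd.toLab (a : ℤ) (ha : ∀ x, a ≤ deg x)
    (hD : ∀ x y g, ent D x y g ≠ 0 → deg y = deg x + 1) : T.Lab S J k where
  E := Z.cx
  fin := Z.finC
  β := L
  π n x := Z.lab x.1
  gr x := (deg x - a).toNat
  dgr n n' x y g hg := by
    have h1 : ent (Loc.lin (Z.cx.d n n')) x y g = ent Z.d x.1 y.1 g := Z.ent_d n n' x y g
    rw [h1] at hg ⊢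
    rcases Z.hl _ _ _ hg with h2 | h2
    · exact Or.inr h2
    · left
      have h3 := hD _ _ _ h2
      have h4 := ha (Z.lab x.1)
      show (deg (Z.lab x.1) - a).toNat < (deg (Z.lab y.1) - a).toNat
      omega
  c j n n' := pr Z.dg n' ∘ₗ Z.c j ∘ₗ inc Z.dg n
  cd j hj n' n n'' h1 h2 := by
    refine LinearMap.ext fun v => ?_
    have e1 : inc Z.dg n' (pr Z.dg n' (Z.c j (inc Z.dg n v))) = Z.c j (inc Z.dg n v) :=
      inc_pr Z.dg (Z.c j ∘ₗ inc Z.dg n) (fun x y g hg => by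
        rw [ent_comp_up] at hg
        have := Z.cd j hj _ _ _ hg
        rw [x.2] at this
        omega) v
    have e2 : inc Z.dg n'' (pr Z.dg n'' (Z.d (inc Z.dg n v))) = Z.d (inc Z.dg n v) :=
      inc_pr Z.dg (Z.d ∘ₗ inc Z.dg n) (fun x y g hg => by
        rw [ent_comp_up] at hg
        have := Z.hd _ _ _ hg
        rw [x.2] at this
        omega) v
    have e3 := Z.cc j hj (inc Z.dg n v)
    change pr Z.dg n (Z.d (inc Z.dg n' (pr Z.dg n' (Z.c j (inc Z.dg n v))))) +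
      pr Z.dg n (Z.c j (inc Z.dg n'' (pr Z.dg n'' (Z.d (inc Z.dg n v))))) = v
    rw [e1, e2, ← map_add, e3]
    exact dn_up _ _ v
  csp j hj n n' x y g hg := Z.csp' j hj n n' x y g hg

end

/-! ### The maps -/

section

variable (E : CochainComplex (Loc k (T.P S)) ℤ)

/-- The index set of the total matrices. -/
abbrev TI : Type u := Σ n : ℤ, (E.X n).ι

/-- The degrees. -/
abbrev tdeg (s : TI E) : ℤ := s.1

/-- The locations. -/
abbrev tloc (s : TI E) : T.Box := (E.X s.1).loc s.2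

/-- The differential. -/
noncomputable abbrev tD : Mt k Γ (TI E) (TI E) :=
  tot (I := fun n => (E.X n).ι) 1 fun n m => Loc.lin (E.d n m)

/-- The total matrix of an endomorphism. -/
noncomputable abbrev tp (p : E ⟶ E) : Mt k Γ (TI E) (TI E) :=
  tot0 (I := fun n => (E.X n).ι) fun n => Loc.lin (p.f n)

theorem finite_TI (h : FinC E) : Finite (TI E) := by
  obtain ⟨a, b, hab⟩ := h.bdd
  have h1 : Finite (Σ n : Set.Icc a b, (E.X n.1).ι) :=
    @Finite.instSigma _ _ _ fun n => h.fin n.1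
  refine Finite.of_surjective (fun s : Σ n : Set.Icc a b, (E.X n.1).ι =>
    (⟨s.1.1, s.2⟩ : TI E)) ?_
  rintro ⟨n, x⟩
  have h2 : a ≤ n ∧ n ≤ b := by
    by_contra hc
    have : IsEmpty (E.X n).ι := hab n (by omega)
    exact this.false x
  exact ⟨⟨⟨n, h2⟩, x⟩, rfl⟩

theorem tD_tD (v : Fr k Γ (TI E)) : tD E (tD E v) = 0 := by
  have : tD E ∘ₗ tD E = 0 := sig_ext fun n v => by
    rw [LinearMap.comp_apply, tot_inj 1 _ rfl, tot_inj 1 _ rfl]
    have h1 : Loc.lin (E.d (n + 1) (n + 1 + 1)) (Loc.lin (E.d n (n + 1)) v) = 0 := by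
      have h2 := congrArg Loc.lin (E.d_comp_d n (n + 1) (n + 1 + 1))
      rw [Loc.lin_comp, Loc.lin_zero] at h2
      exact LinearMap.congr_fun h2 v
    rw [h1, map_zero]
    rfl
  exact LinearMap.congr_fun this v

theorem tD_tp (p : E ⟶ E) (v : Fr k Γ (TI E)) : tD E (tp E p v) = tp E p (tD E v) := by
  have : tD E ∘ₗ tp E p = tp E p ∘ₗ tD E := sig_ext fun n v => by
    rw [LinearMap.comp_apply, LinearMap.comp_apply, tot0_inj, tot_inj 1 _ rfl, tot_inj 1 _ rfl,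
      tot0_inj]
    have h1 : Loc.lin (E.d n (n + 1)) (Loc.lin (p.f n) v) =
        Loc.lin (p.f (n + 1)) (Loc.lin (E.d n (n + 1)) v) := by
      have h2 := congrArg Loc.lin (p.comm n (n + 1))
      rw [Loc.lin_comp, Loc.lin_comp] at h2
      exact LinearMap.congr_fun h2 v
    rw [h1]
  exact LinearMap.congr_fun this v

theorem pow_tp (p : E ⟶ E) (N : ℕ) (n : ℤ) (v : Fr k Γ (E.X n).ι) :
    ((tp E p) ^ N) (inj (I := fun n => (E.X n).ι) n v) =
      inj (I := fun n => (E.X n).ι) n (((Loc.lin (p.f n)) ^ N) v) := by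
  induction N with
  | zero => rfl
  | succ N ih =>
    rw [pow_succ', pow_succ', Module.End.mul_apply, ih]
    exact tot0_inj _ _

end

end Pool.Agent.NegK.NT.H47
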