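import Pool.Agent.Lib.MP_28303a_al.NT.H47.Kos2

/-! # The objects of `P_S^J(k)` are retracts of labelled complexes: the theorem -/

set_option autoImplicit false
set_option linter.unusedSectionVars false
set_option linter.unusedVariables false

namespace Pool.Agent.NegK.NT.H47

universe u

open CategoryTheory Limits

variable {k : Type u} [Ring k] {Γ : Type u} [Group Γ] {T : Sys Γ} {S J : Finset (Fin T.m)}

section

variable {E : CochainComplex (Loc k (T.P S)) ℤ} {p : E ⟶ E}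
  (Z : Kd T S J (tdeg E) (tD E) (tp E p) (tloc E))

theorem Kd.spt_α (n : ℤ) : Loc.Spt (E.X n) (Z.X n)
    (pr Z.dg n ∘ₗ Z.α ∘ₗ inj (I := fun n => (E.X n).ι) n) := by
  intro x y g hg i hi
  have h1 : ent (pr Z.dg n ∘ₗ Z.α ∘ₗ inj (I := fun n => (E.X n).ι) n) x y g =
      ent Z.α ⟨n, x⟩ y.1 g := by
    rw [ent_dn_comp, ent_comp_up]
  exact Z.sα ⟨n, x⟩ y.1 g (by rw [← h1]; exact hg) i hi

theorem Kd.spt_β (n : ℤ) : Loc.Spt (Z.X n) (E.X n)
    (prj (I := fun n => (E.X n).ι) n ∘ₗ Z.β ∘ₗ inc Z.dg n) := by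
  intro x y g hg i hi
  have h1 : ent (prj (I := fun n => (E.X n).ι) n ∘ₗ Z.β ∘ₗ inc Z.dg n) x y g =
      ent Z.β x.1 ⟨n, y⟩ g := by
    rw [ent_dn_comp, ent_comp_up]
  exact Z.sβ x.1 ⟨n, y⟩ g (by rw [← h1]; exact hg) i hi

theorem Kd.inc_α (n : ℤ) (v : Fr k Γ (E.X n).ι) :
    inc Z.dg n (pr Z.dg n (Z.α (inj (I := fun n => (E.X n).ι) n v))) =
      Z.α (inj (I := fun n => (E.X n).ι) n v) :=
  inc_pr Z.dg (Z.α ∘ₗ inj (I := fun n => (E.X n).ι) n) (fun x y g hg => by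
    rw [ent_comp_up] at hg
    exact Z.gα _ _ _ hg) v

theorem Kd.inc_d (n m : ℤ) (h : n + 1 = m) (v : Fr k Γ {x // Z.dg x = n}) :
    inc Z.dg m (pr Z.dg m (Z.d (inc Z.dg n v))) = Z.d (inc Z.dg n v) :=
  inc_pr Z.dg (Z.d ∘ₗ inc Z.dg n) (fun x y g hg => by
    rw [ent_comp_up] at hg
    rw [Z.hd _ _ _ hg, x.2]
    exact h) v

theorem Kd.inj_β (n : ℤ) (v : Fr k Γ {x // Z.dg x = n}) :
    inj (I := fun n => (E.X n).ι) n (prj (I := fun n => (E.X n).ι) n (Z.β (inc Z.dg n v))) =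
      Z.β (inc Z.dg n v) :=
  inj_prj (Z.β ∘ₗ inc Z.dg n) (fun x y g hg => by
    rw [ent_comp_up] at hg
    have := Z.gβ _ _ _ hg
    rw [x.2] at this
    exact this) v

/-- The map `α`. -/
noncomputable def Kd.αc : E ⟶ Z.cx where
  f n := Loc.hm (A := E.X n) (A' := Z.X n)
    (pr Z.dg n ∘ₗ Z.α ∘ₗ inj (I := fun n => (E.X n).ι) n) (Z.spt_α n)
  comm' n m h := by
    refine Loc.hom_ext (LinearMap.ext fun v => ?_)
    change pr Z.dg m (Z.d (inc Z.dg n (pr Z.dg n (Z.α (inj (I := fun n => (E.X n).ι) n v))))) =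
      pr Z.dg m (Z.α (inj (I := fun n => (E.X n).ι) m (Loc.lin (E.d n m) v)))
    rw [Z.inc_α, Z.dα, tot_inj 1 _ (show m = n + 1 from h.symm)]

theorem Kd.β_comm (n m : ℤ) (h : n + 1 = m) (v : Fr k Γ {x // Z.dg x = n}) :
    Loc.lin (E.d n m) (prj (I := fun n => (E.X n).ι) n (Z.β (inc Z.dg n v))) =
      prj (I := fun n => (E.X n).ι) m
        (Z.β (inc Z.dg m (pr Z.dg m (Z.d (inc Z.dg n v))))) := by
  rw [Z.inc_d n m h, Z.dβ, ← Z.inj_β n v, tot_inj 1 _ h.symm, dn_up, dn_up]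

/-- The map `β`. -/
noncomputable def Kd.βc : Z.cx ⟶ E where
  f n := Loc.hm (A := Z.X n) (A' := E.X n)
    (prj (I := fun n => (E.X n).ι) n ∘ₗ Z.β ∘ₗ inc Z.dg n) (Z.spt_β n)
  comm' n m h := by
    exact Loc.hom_ext (LinearMap.ext fun v => Z.β_comm n m h v)

theorem Kd.comp_f (n : ℤ) : Loc.lin ((Z.αc ≫ Z.βc).f n) = (Loc.lin (p.f n)) ^ J.card := by
  refine LinearMap.ext fun v => ?_
  change prj (I := fun n => (E.X n).ι) n (Z.β (inc Z.dg n (pr Z.dg n (Z.α
    (inj (I := fun n => (E.X n).ι) n v))))) = _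
  rw [Z.inc_α, Z.βα, pow_tp, dn_up]

end

/-- The powers of an endomorphism. -/
noncomputable def pw {E : CochainComplex (Loc k (T.P S)) ℤ} (p : E ⟶ E) : ℕ → (E ⟶ E)
  | 0 => 𝟙 E
  | n + 1 => pw p n ≫ p

theorem lin_pw {E : CochainComplex (Loc k (T.P S)) ℤ} (p : E ⟶ E) (N : ℕ) (n : ℤ) :
    Loc.lin ((pw p N).f n) = (Loc.lin (p.f n)) ^ N := by
  induction N with
  | zero => rfl
  | succ N ih =>
    rw [pw, HomologicalComplex.comp_f, Loc.lin_comp, ih, pow_succ']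
    rfl

theorem Kd.comp {E : CochainComplex (Loc k (T.P S)) ℤ} {p : E ⟶ E}
    (Z : Kd T S J (tdeg E) (tD E) (tp E p) (tloc E)) : Z.αc ≫ Z.βc = pw p J.card :=
  HomologicalComplex.hom_ext _ _ fun n => Loc.hom_ext (by rw [Z.comp_f, lin_pw])

/-- The null-homotopy as a total matrix. -/
theorem exists_hty {E : CochainComplex (Loc k (T.P S)) ℤ} (p : E ⟶ E) (j : Fin T.m)
    (H : Homotopy (((Loc.push (k := k) (T.fg (S.erase_subset j))).mapHomologicalComplex
      (ComplexShape.up ℤ)).map p) 0) :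
    ∃ h : Mt k Γ (TI E) (TI E), (∀ x, tp E p x = tD E (h x) + h (tD E x)) ∧
      (∀ x y g, ent h x y g ≠ 0 → tdeg E y + 1 = tdeg E x) ∧
      ∀ x y g, ent h x y g ≠ 0 → ∀ i ∈ S, i ≠ j → tloc E x i ≤ g • tloc E y i := by
  let a : ∀ n m : ℤ, Mt k Γ (E.X n).ι (E.X m).ι := fun n m =>
    Loc.lin (A := (Loc.push (k := k) (T.fg (S.erase_subset j))).obj (E.X n))
      (A' := (Loc.push (k := k) (T.fg (S.erase_subset j))).obj (E.X m)) (H.hom n m)
  have hc : ∀ n : ℤ, Loc.lin (p.f n) =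
      a (n + 1) n ∘ₗ Loc.lin (E.d n (n + 1)) + Loc.lin (E.d (n - 1) n) ∘ₗ a n (n - 1) := by
    intro n
    have h1 := H.comm n
    rw [dNext_eq H.hom (show (ComplexShape.up ℤ).Rel n (n + 1) from rfl),
      prevD_eq H.hom (show (ComplexShape.up ℤ).Rel (n - 1) n from sub_add_cancel n 1)] at h1
    exact congrArg Loc.lin (h1.trans (add_zero _))
  refine ⟨tot (I := fun n => (E.X n).ι) (-1) a, fun x => ?_, fun x y g hg => ?_,
    fun x y g hg i hi hij => ?_⟩
  · have : tp E p = tD E ∘ₗ tot (I := fun n => (E.X n).ι) (-1) a +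
        tot (I := fun n => (E.X n).ι) (-1) a ∘ₗ tD E := sig_ext fun n v => by
      rw [LinearMap.add_apply, LinearMap.comp_apply, LinearMap.comp_apply, tot0_inj,
        tot_inj (-1) _ (show n - 1 = n + -1 from rfl), tot_inj 1 _ (show n = n - 1 + 1 by omega),
        tot_inj 1 _ rfl, tot_inj (-1) _ (show n = n + 1 + -1 by omega), ← map_add, hc n,
        add_comm]
      rfl
    exact LinearMap.congr_fun this x
  · have := (ent_tot hg).1
    show y.1 + 1 = x.1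
    omega
  · obtain ⟨n, x⟩ := x
    obtain ⟨m, y⟩ := y
    exact Loc.spt_lin (A := (Loc.push (k := k) (T.fg (S.erase_subset j))).obj (E.X n))
      (A' := (Loc.push (k := k) (T.fg (S.erase_subset j))).obj (E.X m)) (H.hom n m) x y g
      (ent_tot hg).2 i (Finset.mem_erase.2 ⟨hij, hi⟩)

/-- KOS. -/
theorem kos (T : Sys Γ) : T.KOS := by
  intro S J hJ k _ X hX
  obtain ⟨E, hE, ⟨R⟩⟩ := hX.per
  obtain ⟨p, hp⟩ := (HomotopyCategory.quotient (Loc k (T.P S)) (ComplexShape.up ℤ)).map_surjective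
    (R.r ≫ R.i)
  have := finite_TI E hE
  obtain ⟨a, ha⟩ := hE.bdd
  obtain ⟨b, ha⟩ := ha
  have hlow : ∀ x : TI E, a ≤ tdeg E x := by
    rintro ⟨n, x⟩
    by_contra hc
    have h1 : IsEmpty (E.X n).ι := ha n (Or.inl (not_le.1 hc))
    exact h1.false x
  have hD : ∀ x y g, ent (tD E) x y g ≠ 0 → tdeg E y = tdeg E x + 1 := fun x y g hg =>
    (ent_tot hg).1
  have hsD : ∀ x y g, ent (tD E) x y g ≠ 0 → ∀ i ∈ S, tloc E x i ≤ g • tloc E y i := by
    rintro ⟨n, x⟩ ⟨m, y⟩ g hg i hi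
    exact Loc.spt_lin (E.d n m) x y g (ent_tot hg).2 i hi
  have hgp : ∀ x y g, ent (tp E p) x y g ≠ 0 → tdeg E y = tdeg E x := by
    rintro ⟨n, x⟩ ⟨m, y⟩ g hg
    exact (ent_tot0 hg).1.symm
  have hsp : ∀ x y g, ent (tp E p) x y g ≠ 0 → ∀ i ∈ S, tloc E x i ≤ g • tloc E y i := by
    rintro ⟨n, x⟩ ⟨m, y⟩ g hg i hi
    obtain ⟨h1, h2⟩ := ent_tot0 hg
    subst h1
    exact Loc.spt_lin (p.f n) x y g h2 i hi
  obtain ⟨Z⟩ := exists_kd (T := T) (S := S) (deg := tdeg E) (D := tD E) (p := tp E p)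
    (loc := tloc E) (tD_tD E) hD hsD (tD_tp E p) hgp hsp J hJ (fun j hj => by
      have hz : (T.L k (S.erase_subset j)).map (R.r ≫ R.i) = 0 := by
        rw [Functor.map_comp]
        have := (hX.ac j hj).eq_of_tgt ((T.L k (S.erase_subset j)).map R.r) 0
        rw [this, zero_comp]
      rw [← hp] at hz
      have hz' : (HomotopyCategory.quotient _ (ComplexShape.up ℤ)).map
          (((Loc.push (k := k) (T.fg (S.erase_subset j))).mapHomologicalComplex
            (ComplexShape.up ℤ)).map p) = (HomotopyCategory.quotient _ (ComplexShape.up ℤ)).map 0 := by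
        rw [Functor.map_zero]
        exact hz
      exact exists_hty p j (HomotopyCategory.homotopyOfEq _ _ hz'))
  have h1 : ∀ N : ℕ, R.i ≫ (HomotopyCategory.quotient _ _).map (pw p N) = R.i := by
    intro N
    induction N with
    | zero => rw [pw, CategoryTheory.Functor.map_id, Category.comp_id]
    | succ N ih =>
      rw [pw, Functor.map_comp, ← Category.assoc, ih, hp, ← Category.assoc, R.retract,
        Category.id_comp]
  have R' : Retract X (qo Z.cx) := {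
    i := R.i ≫ (HomotopyCategory.quotient _ _).map Z.αc
    r := (HomotopyCategory.quotient _ _).map Z.βc ≫ R.r
    retract := by
      rw [Category.assoc, ← Category.assoc _ _ R.r, ← Functor.map_comp, Z.comp, ← Category.assoc,
        h1, R.retract] }
  exact ⟨Z.toLab a hlow hD, ⟨R'⟩⟩

end Pool.Agent.NegK.NT.H47
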