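import Pool.Agent.Lib.MP_28303a_al.NT.A.Iface

/-! # The complex `0 → ⊕_e → ⊕_v → L_j → 0` -/

set_option autoImplicit false
set_option linter.unusedSectionVars false
set_option linter.unusedVariables false

namespace Pool.Agent.NegK.NT.H47

universe u

open CategoryTheory Limits Opposite

/-! ### Monomials -/

section

variable {k : Type u} [Ring k] {Γ : Type u} [Group Γ] {ι : Type u}

/-- The monomials. -/
noncomputable abbrev mon (k : Type u) [Ring k] {Γ : Type u} [Group Γ] {ι : Type u} (b : ι × Γ) :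
    ι →₀ MonoidAlgebra k Γ := Finsupp.single b.1 (MonoidAlgebra.single b.2 (1 : k))

/-- The coefficients. -/
noncomputable def cfL (k Γ : Type u) [Ring k] [Group Γ] : MonoidAlgebra k Γ →ₗ[k] (Γ →₀ k) where
  toFun x := x.coeff
  map_add' x y := rfl
  map_smul' c x := rfl

/-- The linear map with given values on the monomials. -/
noncomputable def lc {N : Type u} [AddCommGroup N] [Module k N] (m : ι × Γ → N) :
    (ι →₀ MonoidAlgebra k Γ) →ₗ[k] N :=
  Finsupp.lsum ℕ fun i => (Finsupp.linearCombination k fun g => m (i, g)) ∘ₗ cfL k Γ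

theorem smul_mon (a : k) (i : ι) (g : Γ) :
    a • mon k (i, g) = Finsupp.single i (MonoidAlgebra.single g a) := by
  rw [mon, Finsupp.smul_single, MonoidAlgebra.smul_single, smul_eq_mul, mul_one]

theorem lc_single {N : Type u} [AddCommGroup N] [Module k N] (m : ι × Γ → N) (i : ι) (g : Γ)
    (a : k) : lc m (Finsupp.single i (MonoidAlgebra.single g a)) = a • m (i, g) := by
  rw [lc, Finsupp.lsum_single, LinearMap.comp_apply]
  have : cfL k Γ (MonoidAlgebra.single g a) = Finsupp.single g a := rfl
  rw [this, Finsupp.linearCombination_single]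

theorem lc_mon {N : Type u} [AddCommGroup N] [Module k N] (m : ι × Γ → N) (b : ι × Γ) :
    lc m (mon k b) = m b := by
  rw [mon, lc_single, one_smul]

theorem ind_mon {p : (ι →₀ MonoidAlgebra k Γ) → Prop} (h0 : p 0)
    (ha : ∀ x y, p x → p y → p (x + y)) (hs : ∀ (a : k) (b : ι × Γ), p (a • mon k b)) :
    ∀ x, p x := by
  intro x
  induction x using Finsupp.induction_linear with
  | zero => exact h0
  | add x y hx hy => exact ha x y hx hy
  | single i b =>
    induction b using MonoidAlgebra.induction_linear with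
    | zero =>
      rw [Finsupp.single_zero]
      exact h0
    | add a b hx hy =>
      rw [Finsupp.single_add]
      exact ha _ _ hx hy
    | single g q =>
      rw [← smul_mon]
      exact hs q (i, g)

theorem lin_ext {N : Type u} [AddCommGroup N] [Module k N]
    {f f' : (ι →₀ MonoidAlgebra k Γ) →ₗ[k] N} (H : ∀ b, f (mon k b) = f' (mon k b)) : f = f' := by
  refine LinearMap.ext fun x => ?_
  refine ind_mon (p := fun x => f x = f' x) ?_ ?_ ?_ x
  · rw [map_zero, map_zero]
  · intro x y hx hy
    rw [map_add, map_add, hx, hy]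
  · intro a b
    rw [map_smul, map_smul, H]

theorem coeff_mon (b : ι × Γ) (i : ι) (g : Γ) [Decidable (b = (i, g))] :
    ((mon k b : ι →₀ MonoidAlgebra k Γ) i).coeff g = if b = (i, g) then 1 else 0 := by
  classical
  obtain ⟨i', g'⟩ := b
  rw [mon, Finsupp.single_apply]
  by_cases h1 : i' = i
  · subst h1
    rw [if_pos rfl, MonoidAlgebra.coeff_single, Finsupp.single_apply]
    by_cases h2 : g' = g
    · subst h2
      rw [if_pos rfl, if_pos rfl]
    · rw [if_neg h2, if_neg fun h => h2 (congrArg Prod.snd h)]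
  · rw [if_neg h1, if_neg fun h => h1 (congrArg Prod.fst h)]
    rfl

end

/-! ### Monomials in the values of `ev` -/

section

variable {k : Type u} [Ring k] {Γ : Type u} [Group Γ] {B : Type u} [MulAction Γ B] {P : Pre Γ B}
  (A : Loc k P)

theorem mon_mem {V : B} {b : A.ι × Γ} (h : P.le V (b.2 • A.loc b.1)) : mon k b ∈ A.evS V := by
  classical
  intro i g hg
  rw [coeff_mon] at hg
  split_ifs at hg with h1
  · rw [h1] at h
    exact h
  · exact absurd rfl hg

/-- The monomials of `ev`. -/
noncomputable def mo {V : B} (b : A.ι × Γ) (h : P.le V (b.2 • A.loc b.1)) :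
    (Loc.ev.obj A).obj (op (Bx.of V : Bx P)) :=
  (⟨mon k b, mon_mem A h⟩ : A.evS V)

/-- The value as an element of the free module. -/
noncomputable def vl (V : B) : ((Loc.ev.obj A).obj (op (Bx.of V : Bx P))) →ₗ[k] A.F :=
  (A.evS V).subtype

theorem vl_inj (V : B) : Function.Injective (vl A V) := Subtype.val_injective

theorem vl_mo {V : B} (b : A.ι × Γ) (h : P.le V (b.2 • A.loc b.1)) : vl A V (mo A b h) = mon k b :=
  rfl

open Classical in
/-- The monomial or zero. -/
noncomputable def mz (V : B) (b : A.ι × Γ) : (Loc.ev.obj A).obj (op (Bx.of V : Bx P)) :=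
  if h : P.le V (b.2 • A.loc b.1) then mo A b h else 0

theorem lc_mz (V : B) (x : (Loc.ev.obj A).obj (op (Bx.of V : Bx P))) :
    lc (mz A V) (vl A V x) = x := by
  classical
  refine vl_inj A V ?_
  have key : ∀ (y : A.F) (i : A.ι) (g : Γ), ((vl A V (lc (mz A V) y)) i).coeff g =
      if P.le V (g • A.loc i) then (y i).coeff g else 0 := by
    intro y i g
    refine ind_mon (p := fun y : A.F => ((vl A V (lc (mz A V) y)) i).coeff g =
      if P.le V (g • A.loc i) then (y i).coeff g else 0) ?_ ?_ ?_ y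
    · rw [map_zero, map_zero]
      split_ifs <;> rfl
    · intro x y hx hy
      rw [map_add, map_add, Finsupp.add_apply, MonoidAlgebra.coeff_add, Finsupp.add_apply, hx, hy]
      split_ifs
      · rfl
      · exact add_zero 0
    · intro a b
      rw [map_smul, map_smul, lc_mon, Finsupp.smul_apply, Finsupp.smul_apply,
        MonoidAlgebra.coeff_smul, MonoidAlgebra.coeff_smul, Finsupp.smul_apply,
        Finsupp.smul_apply, mz]
      split_ifs with h1 h2 h3
      · rw [vl_mo]
      · rw [vl_mo, coeff_mon, if_neg, smul_zero]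
        intro h4
        rw [h4] at h1
        exact h2 h1
      · rw [map_zero]
        rw [coeff_mon, if_neg]
        · rfl
        · intro h4
          rw [h4] at h1
          exact h1 h3
      · rw [map_zero]
        exact smul_zero a
  ext i g
  rw [key]
  split_ifs with h
  · rfl
  · by_contra hc
    exact h ((x : A.evS V).2 i g fun h0 => hc h0.symm)

theorem ev_ext {V : B} {N : Type u} [AddCommGroup N] [Module k N]
    {f f' : ((Loc.ev.obj A).obj (op (Bx.of V : Bx P))) →ₗ[k] N}
    (H : ∀ b (h : P.le V (b.2 • A.loc b.1)), f (mo A b h) = f' (mo A b h)) : f = f' := by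
  classical
  have h1 : f ∘ₗ lc (mz A V) = f' ∘ₗ lc (mz A V) := lin_ext fun b => by
    rw [LinearMap.comp_apply, LinearMap.comp_apply, lc_mon, mz]
    split_ifs with h
    · exact H b h
    · rw [map_zero, map_zero]
  refine LinearMap.ext fun x => ?_
  rw [← lc_mz A V x]
  exact LinearMap.congr_fun h1 (vl A V x)

/-- Restriction along an inequality. -/
theorem res_mo {V W : B} (hVW : P.le W V) (b : A.ι × Γ) (h : P.le V (b.2 • A.loc b.1)) :
    ((Loc.ev.obj A).map (Bx.ofLe hVW : (Bx.of W : Bx P) ⟶ Bx.of V).op).hom (mo A b h) =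
      mo A b (P.trans hVW h) := by
  refine vl_inj A W ?_
  rw [vl_mo]
  change (MonoidAlgebra.single (1 : Γ) (1 : k)) • mon k b = mon k b
  rw [← MonoidAlgebra.one_def, one_smul]

theorem vl_res {V W : B} (hVW : P.le W V) (x : (Loc.ev.obj A).obj (op (Bx.of V : Bx P))) :
    vl A W (((Loc.ev.obj A).map (Bx.ofLe hVW : (Bx.of W : Bx P) ⟶ Bx.of V).op).hom x) =
      vl A V x := by
  change (MonoidAlgebra.single (1 : Γ) (1 : k)) • vl A V x = vl A V x
  rw [← MonoidAlgebra.one_def, one_smul]

end

/-! ### The contraction -/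

section

variable {Γ : Type u} [Group Γ] {T : Sys Γ} (D : T.Tr) {S : Finset (Fin T.m)} (j : Fin T.m)
  {k : Type u} [Ring k] (A : Loc k (T.P S)) (U : T.Box)

/-- The location of a monomial. -/
def bl (b : A.ι × Γ) : T.Box := b.2 • A.loc b.1

/-- The condition on a monomial in the directions different from `j`. -/
def Gd (b : A.ι × Γ) : Prop := ∀ i ∈ S, i ≠ j → U i ≤ bl A b i

theorem le_up_iff (hj : j ∈ S) (c : T.B j) (b : A.ι × Γ) :
    (T.P S).le (T.up j U c) (b.2 • A.loc b.1) ↔ c ≤ bl A b j ∧ Gd j A U b := by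
  constructor
  · intro h
    refine ⟨?_, fun i hi hij => ?_⟩
    · have := h j hj
      rwa [Sys.up, Function.update_self] at this
    · have := h i hi
      rwa [Sys.up, Function.update_of_ne hij] at this
  · rintro ⟨h1, h2⟩ i hi
    by_cases hij : i = j
    · subst hij
      rw [Sys.up, Function.update_self]
      exact h1
    · rw [Sys.up, Function.update_of_ne hij]
      exact h2 i hi hij

/-- The sum over the vertices. -/
abbrev DV : Type u := DirectSum (D.V j) fun v =>
  (Loc.ev.obj A).obj (op (Bx.of (T.up j U (D.vt j v)) : Bx (T.P S)))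

/-- The sum over the edges. -/
abbrev DE : Type u := DirectSum (D.E j) fun e =>
  (Loc.ev.obj A).obj (op (Bx.of (T.up j U (D.ed j e)) : Bx (T.P S)))

open Classical in
/-- The monomial at a vertex. -/
noncomputable def tv (b : A.ι × Γ) (v : D.V j) : DV D j A U :=
  DirectSum.lof k (D.V j) (fun v => (Loc.ev.obj A).obj (op (Bx.of (T.up j U (D.vt j v)))))
    v (mz A _ b)

open Classical in
/-- The monomial at an edge. -/
noncomputable def te (b : A.ι × Γ) (e : D.E j) : DE D j A U :=
  DirectSum.lof k (D.E j) (fun e => (Loc.ev.obj A).obj (op (Bx.of (T.up j U (D.ed j e)))))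
    e (mz A _ b)

theorem mz_pos {V : T.Box} {b : A.ι × Γ} (h : (T.P S).le V (b.2 • A.loc b.1)) :
    mz A V b = mo A b h := dif_pos h

theorem tv_pos {b : A.ι × Γ} {v : D.V j}
    (h : (T.P S).le (T.up j U (D.vt j v)) (b.2 • A.loc b.1)) [hd : DecidableEq (D.V j)] :
    tv D j A U b v = DirectSum.lof k (D.V j)
      (fun v => (Loc.ev.obj A).obj (op (Bx.of (T.up j U (D.vt j v))))) v (mo A b h) := by
  obtain rfl : hd = fun a b => Classical.propDecidable (a = b) := Subsingleton.elim _ _
  rw [tv, mz_pos A h]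

theorem te_pos {b : A.ι × Γ} {e : D.E j}
    (h : (T.P S).le (T.up j U (D.ed j e)) (b.2 • A.loc b.1)) [hd : DecidableEq (D.E j)] :
    te D j A U b e = DirectSum.lof k (D.E j)
      (fun e => (Loc.ev.obj A).obj (op (Bx.of (T.up j U (D.ed j e))))) e (mo A b h) := by
  obtain rfl : hd = fun a b => Classical.propDecidable (a = b) := Subsingleton.elim _ _
  rw [te, mz_pos A h]

/-- The differential of a monomial. -/
theorem bd_te (b : A.ι × Γ) (e : D.E j)
    (h : (T.P S).le (T.up j U (D.ed j e)) (b.2 • A.loc b.1)) :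
    D.bd (Loc.ev.obj A) j U (te D j A U b e) =
      tv D j A U b (D.s j e) - tv D j A U b (D.t j e) := by
  classical
  rw [te_pos D j A U h, Sys.Tr.bd]
  erw [DirectSum.toModule_lof]
  rw [LinearMap.sub_apply, LinearMap.comp_apply, LinearMap.comp_apply, res_mo, res_mo,
    tv_pos D j A U ((T.P S).trans (T.up_le S j U (D.sle j e)) h),
    tv_pos D j A U ((T.P S).trans (T.up_le S j U (D.tle j e)) h)]

open Classical in
/-- The contraction. -/
noncomputable def hh : DV D j A U →ₗ[k] DE D j A U :=
  DirectSum.toModule k (D.V j) _ fun v =>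
    lc (fun b : A.ι × Γ => (D.pth j (bl A b j) v).sum fun e a => a • te D j A U b e) ∘ₗ vl A _

/-- The root. -/
noncomputable def rr : A.F →ₗ[k] DV D j A U :=
  lc fun b : A.ι × Γ => tv D j A U b (D.root j (bl A b j))

theorem hh_tv (b : A.ι × Γ) (v : D.V j)
    (h : (T.P S).le (T.up j U (D.vt j v)) (b.2 • A.loc b.1)) :
    hh D j A U (tv D j A U b v) =
      Finsupp.linearCombination ℤ (te D j A U b) (D.pth j (bl A b j) v) := by
  classical
  rw [tv_pos D j A U h, hh]
  erw [DirectSum.toModule_lof]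
  rw [LinearMap.comp_apply, vl_mo, lc_mon]
  rfl

theorem bd_hh (hj : j ∈ S) (b : A.ι × Γ) (v : D.V j)
    (h : (T.P S).le (T.up j U (D.vt j v)) (b.2 • A.loc b.1)) :
    D.bd (Loc.ev.obj A) j U (hh D j A U (tv D j A U b v)) =
      tv D j A U b v - tv D j A U b (D.root j (bl A b j)) := by
  obtain ⟨h1, h2⟩ := (le_up_iff j A U hj _ b).1 h
  rw [hh_tv D j A U b v h, Finsupp.linearCombination_apply, map_finsuppSum]
  have h3 : ((D.pth j (bl A b j) v).sum fun e a =>
      D.bd (Loc.ev.obj A) j U (a • te D j A U b e)) = (D.pth j (bl A b j) v).sum fun e a =>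
        a • (tv D j A U b (D.s j e) - tv D j A U b (D.t j e)) := by
    refine Finsupp.sum_congr fun e he => ?_
    rw [map_zsmul, bd_te D j A U b e]
    exact (le_up_iff j A U hj _ b).2
      ⟨D.pth_le j _ v h1 e (Finsupp.mem_support_iff.1 he), h2⟩
  rw [h3]
  have h4 := congrArg (Finsupp.linearCombination ℤ (tv D j A U b)) (D.bd_pth j (bl A b j) v h1)
  rw [map_finsuppSum, map_sub, Finsupp.linearCombination_single, Finsupp.linearCombination_single,
    one_smul, one_smul] at h4
  rw [← h4]
  refine Finsupp.sum_congr fun e _ => ?_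
  rw [map_smul, map_sub, Finsupp.linearCombination_single, Finsupp.linearCombination_single,
    one_smul, one_smul]

theorem hh_bd (hj : j ∈ S) (b : A.ι × Γ) (e : D.E j)
    (h : (T.P S).le (T.up j U (D.ed j e)) (b.2 • A.loc b.1)) :
    hh D j A U (D.bd (Loc.ev.obj A) j U (te D j A U b e)) = te D j A U b e := by
  obtain ⟨h1, h2⟩ := (le_up_iff j A U hj _ b).1 h
  rw [bd_te D j A U b e h, map_sub,
    hh_tv D j A U b _ ((T.P S).trans (T.up_le S j U (D.sle j e)) h),
    hh_tv D j A U b _ ((T.P S).trans (T.up_le S j U (D.tle j e)) h), ← map_sub,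
    D.pth_bd j _ e h1, Finsupp.linearCombination_single, one_smul]

/-- `sm` of a monomial. -/
theorem sm_tv (b : A.ι × Γ) (v : D.V j)
    (h : (T.P S).le (T.up j U (D.vt j v)) (b.2 • A.loc b.1)) :
    D.sm j A U (tv D j A U b v) = mon k b := by
  classical
  rw [tv_pos D j A U h, Sys.Tr.sm]
  erw [DirectSum.toModule_lof]
  rfl

theorem DV_ext {N : Type u} [AddCommGroup N] [Module k N] {f f' : DV D j A U →ₗ[k] N}
    (H : ∀ b v, (T.P S).le (T.up j U (D.vt j v)) (b.2 • A.loc b.1) →
      f (tv D j A U b v) = f' (tv D j A U b v)) : f = f' := by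
  classical
  refine DirectSum.linearMap_ext k fun v => ev_ext A fun b h => ?_
  have := H b v h
  rwa [tv_pos D j A U h] at this

theorem DE_ext {N : Type u} [AddCommGroup N] [Module k N] {f f' : DE D j A U →ₗ[k] N}
    (H : ∀ b e, (T.P S).le (T.up j U (D.ed j e)) (b.2 • A.loc b.1) →
      f (te D j A U b e) = f' (te D j A U b e)) : f = f' := by
  classical
  refine DirectSum.linearMap_ext k fun e => ev_ext A fun b h => ?_
  have := H b e h
  rwa [te_pos D j A U h] at this

theorem hh_comp_bd (hj : j ∈ S) : hh D j A U ∘ₗ D.bd (Loc.ev.obj A) j U = LinearMap.id :=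
  DE_ext D j A U fun b e h => by
    rw [LinearMap.comp_apply, hh_bd D j A U hj b e h, LinearMap.id_apply]

theorem bd_comp_hh (hj : j ∈ S) :
    D.bd (Loc.ev.obj A) j U ∘ₗ hh D j A U + rr D j A U ∘ₗ D.sm j A U = LinearMap.id :=
  DV_ext D j A U fun b v h => by
    rw [LinearMap.add_apply, LinearMap.comp_apply, LinearMap.comp_apply,
      bd_hh D j A U hj b v h, sm_tv D j A U b v h, rr, lc_mon, LinearMap.id_apply, sub_add_cancel]

theorem sm_comp_bd : D.sm j A U ∘ₗ D.bd (Loc.ev.obj A) j U = 0 :=
  DE_ext D j A U fun b e h => by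
    rw [LinearMap.comp_apply, bd_te D j A U b e h, map_sub,
      sm_tv D j A U b _ ((T.P S).trans (T.up_le S j U (D.sle j e)) h),
      sm_tv D j A U b _ ((T.P S).trans (T.up_le S j U (D.tle j e)) h), sub_self,
      LinearMap.zero_apply]

/-- The elements of `ev L_j A`. -/
theorem sm_rr (hj : j ∈ S) (x : A.F)
    (hx : x ∈ Loc.evS (k := k) (P := T.P (S.erase j)) ⟨A.ι, A.loc⟩ U) :
    D.sm j A U (rr D j A U x) = x := by
  let A' : Loc k (T.P (S.erase j)) := ⟨A.ι, A.loc⟩
  have h1 : (D.sm j A U ∘ₗ rr D j A U) ∘ₗ vl A' U = vl A' U := ev_ext A' fun b h => by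
    rw [LinearMap.comp_apply, LinearMap.comp_apply, vl_mo, rr, lc_mon]
    refine sm_tv D j A U b _ ((le_up_iff j A U hj _ b).2 ⟨D.root_le j _, fun i hi hij => ?_⟩)
    exact h i (Finset.mem_erase.2 ⟨hij, hi⟩)
  exact LinearMap.congr_fun h1 (⟨x, hx⟩ : A'.evS U)

end

/-- TACS. -/
theorem tacs : TacsStatement := by
  intro Γ _ T D S j k _ A U hj
  refine ⟨?_, ?_, fun x => ⟨?_, fun hx => ⟨rr D j A U x, sm_rr D j A U hj x hx⟩⟩⟩
  · exact Function.LeftInverse.injective (g := hh D j A U)
      (LinearMap.congr_fun (hh_comp_bd D j A U hj))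
  · refine le_antisymm ?_ fun y hy => ?_
    · rintro _ ⟨x, rfl⟩
      exact LinearMap.congr_fun (sm_comp_bd D j A U) x
    · have h1 := LinearMap.congr_fun (bd_comp_hh D j A U hj) y
      rw [LinearMap.add_apply, LinearMap.comp_apply, LinearMap.comp_apply,
        LinearMap.mem_ker.1 hy, map_zero, add_zero] at h1
      exact ⟨_, h1⟩
  · rintro ⟨y, rfl⟩
    let A' : Loc k (T.P (S.erase j)) := ⟨A.ι, A.loc⟩
    have h1 : (A'.evS U).mkQ ∘ₗ D.sm j A U = 0 := DV_ext D j A U fun b v h => by
      rw [LinearMap.comp_apply, sm_tv D j A U b v h, LinearMap.zero_apply]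
      refine (Submodule.Quotient.mk_eq_zero _).2 (mon_mem A' fun i hi => ?_)
      exact ((le_up_iff j A U hj _ b).1 h).2 i (Finset.mem_of_mem_erase hi)
        (Finset.ne_of_mem_erase hi)
    exact (Submodule.Quotient.mk_eq_zero _).1 (LinearMap.congr_fun h1 y)

end Pool.Agent.NegK.NT.H47
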