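import Pool.Agent.Lib.MP_28303a_al.NT.H47.Kos

/-! # Total matrices of complexes -/

set_option autoImplicit false
set_option linter.unusedSectionVars false
set_option linter.unusedVariables false

namespace Pool.Agent.NegK.NT.H47

universe u

open CategoryTheory Limits

variable {k : Type u} [Ring k] {Γ : Type u} [Group Γ]

theorem exists_ent {ι κ : Type u} {f : Mt k Γ ι κ} {x : ι} {y : κ}
    (h : f (Finsupp.single x 1) y ≠ 0) : ∃ g, ent f x y g ≠ 0 := by
  by_contra hc
  push Not at hc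
  refine h ?_
  ext g
  exact hc g

theorem mt_ext_ent {ι κ : Type u} {f h : Mt k Γ ι κ} (H : ∀ x y g, ent f x y g = ent h x y g) :
    f = h := by
  refine mt_ext fun x => ?_
  ext y g
  exact H x y g

/-! ### From graded families to total matrices -/

section

variable {I : ℤ → Type u}

/-- The inclusion of the part of degree `n`. -/
noncomputable abbrev inj (n : ℤ) : Mt k Γ (I n) (Σ n, I n) := up (Sigma.mk n)

/-- The projection to the part of degree `n`. -/
noncomputable abbrev prj (n : ℤ) : Mt k Γ (Σ n, I n) (I n) := dn (Sigma.mk n) sigma_mk_injective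

/-- The total matrix of a family of degree `c`. -/
noncomputable def tot (c : ℤ) (a : ∀ n m, Mt k Γ (I n) (I m)) : Mt k Γ (Σ n, I n) (Σ n, I n) :=
  Finsupp.linearCombination _ fun s =>
    (inj (s.1 + c) : Mt k Γ (I (s.1 + c)) (Σ n, I n)) (a s.1 (s.1 + c) (Finsupp.single s.2 1))

theorem tot_single (c : ℤ) (a : ∀ n m, Mt k Γ (I n) (I m)) {n m : ℤ} (h : m = n + c) (x : I n) :
    tot c a (Finsupp.single ⟨n, x⟩ 1) = inj m (a n m (Finsupp.single x 1)) := by
  subst h
  rw [tot, Finsupp.linearCombination_single, one_smul]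

theorem tot_inj (c : ℤ) (a : ∀ n m, Mt k Γ (I n) (I m)) {n m : ℤ} (h : m = n + c)
    (v : Fr k Γ (I n)) : tot c a (inj n v) = inj m (a n m v) := by
  have : tot c a ∘ₗ inj n = inj m ∘ₗ a n m := mt_ext fun x => by
    rw [LinearMap.comp_apply, LinearMap.comp_apply, up_single, tot_single c a h]
  exact LinearMap.congr_fun this v

theorem ent_tot {c : ℤ} {a : ∀ n m, Mt k Γ (I n) (I m)} {x y : Σ n, I n} {g : Γ}
    (h : ent (tot c a) x y g ≠ 0) : y.1 = x.1 + c ∧ ent (a x.1 y.1) x.2 y.2 g ≠ 0 := by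
  obtain ⟨n, x⟩ := x
  obtain ⟨m, y⟩ := y
  rw [ent, tot_single c a rfl] at h
  by_cases hm : m = n + c
  · subst hm
    rw [up_apply (Sigma.mk (n + c)) sigma_mk_injective] at h
    exact ⟨rfl, h⟩
  · refine absurd ?_ h
    rw [up_apply_of]
    · rfl
    · intro z hz
      exact hm (congrArg Sigma.fst hz).symm

/-- The total matrix of a family of degree `0`. -/
noncomputable def tot0 (a : ∀ n, Mt k Γ (I n) (I n)) : Mt k Γ (Σ n, I n) (Σ n, I n) :=
  Finsupp.linearCombination _ fun s =>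
    (inj s.1 : Mt k Γ (I s.1) (Σ n, I n)) (a s.1 (Finsupp.single s.2 1))

theorem tot0_single (a : ∀ n, Mt k Γ (I n) (I n)) {n : ℤ} (x : I n) :
    tot0 a (Finsupp.single ⟨n, x⟩ 1) = inj n (a n (Finsupp.single x 1)) := by
  rw [tot0, Finsupp.linearCombination_single, one_smul]

theorem tot0_inj (a : ∀ n, Mt k Γ (I n) (I n)) {n : ℤ} (v : Fr k Γ (I n)) :
    tot0 a (inj n v) = inj n (a n v) := by
  have : tot0 a ∘ₗ inj n = inj n ∘ₗ a n := mt_ext fun x => by
    rw [LinearMap.comp_apply, LinearMap.comp_apply, up_single, tot0_single]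
  exact LinearMap.congr_fun this v

theorem ent_tot0 {a : ∀ n, Mt k Γ (I n) (I n)} {n m : ℤ} {x : I n} {y : I m} {g : Γ}
    (h : ent (tot0 a) ⟨n, x⟩ ⟨m, y⟩ g ≠ 0) : ∃ h : n = m, ent (a m) (h ▸ x) y g ≠ 0 := by
  rw [ent, tot0_single a] at h
  by_cases hm : n = m
  · subst hm
    rw [up_apply (Sigma.mk n) sigma_mk_injective] at h
    exact ⟨rfl, h⟩
  · refine absurd ?_ h
    rw [up_apply_of]
    · rfl
    · intro z hz
      exact hm (congrArg Sigma.fst hz)

/-- Induction on the degrees. -/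
theorem sig_ext {κ : Type u} {f h : Mt k Γ (Σ n, I n) κ}
    (H : ∀ (n : ℤ) (v : Fr k Γ (I n)), f (inj n v) = h (inj n v)) : f = h := by
  refine mt_ext ?_
  rintro ⟨n, x⟩
  have := H n (Finsupp.single x 1)
  rwa [up_single] at this

end

/-! ### From total matrices to graded families -/

section

variable {ι κ : Type u} (dg : ι → ℤ)

/-- The inclusion of the part of degree `n`. -/
noncomputable abbrev inc (n : ℤ) : Mt k Γ {x // dg x = n} ι := up Subtype.val

/-- The projection to the part of degree `n`. -/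
noncomputable abbrev pr (n : ℤ) : Mt k Γ ι {x // dg x = n} := dn Subtype.val Subtype.val_injective

theorem inc_pr {n : ℤ} (f : Mt k Γ κ ι) (h : ∀ x y g, ent f x y g ≠ 0 → dg y = n)
    (v : Fr k Γ κ) : inc dg n (pr dg n (f v)) = f v := by
  have : (inc dg n ∘ₗ pr dg n) ∘ₗ f = f := mt_ext fun x => by
    rw [LinearMap.comp_apply, LinearMap.comp_apply]
    refine up_dn _ _ _ fun y hy => ?_
    obtain ⟨g, hg⟩ := exists_ent hy
    exact ⟨⟨y, h x y g hg⟩, rfl⟩
  exact LinearMap.congr_fun this v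

theorem inj_prj {I : ℤ → Type u} {n : ℤ} (f : Mt k Γ κ (Σ n, I n))
    (h : ∀ x y g, ent f x y g ≠ 0 → y.1 = n) (v : Fr k Γ κ) : inj n (prj n (f v)) = f v := by
  have : (inj n ∘ₗ prj n) ∘ₗ f = f := mt_ext fun x => by
    rw [LinearMap.comp_apply, LinearMap.comp_apply]
    refine up_dn _ _ _ fun y hy => ?_
    obtain ⟨g, hg⟩ := exists_ent hy
    obtain ⟨m, y⟩ := y
    obtain rfl : m = n := h x _ g hg
    exact ⟨y, rfl⟩
  exact LinearMap.congr_fun this v

end

end Pool.Agent.NegK.NT.H47
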